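import Pool.Agent.N121.ZK.Inv

/-!
# Fixed and moving branch points: transvections of one curve
-/

set_option autoImplicit false
set_option linter.unusedSectionVars false

open Complex Set Filter Topology Matrix

namespace Pool.Agent.N121.FX

open Pool.Agent.Y118.HP
open Pool.Agent.N156.HC
open Pool.Agent.N121.ZK
open Pool.Agent.Y890.MV (evX evM evM_an)
open Pool.Agent.Y890.HE (Ord Ord_open Ord_convex Ord_real Ord_nonempty fH fH_an FM mt legendreC real_zero
  strictMono_of_mem)
open Pool.Agent.Y890.SM (Ix)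

variable {N : ℕ}

/-- the moving points -/
abbrev Mv (A : Finset (Fin (N + 1))) : Type := {k : Fin (N + 1) // k ∈ A}

/-- all the branch points -/
noncomputable def ins (z : Fin (N + 1) → ℝ) (A : Finset (Fin (N + 1))) (t : Mv A → ℂ) (k : Fin (N + 1)) : ℂ :=
  if h : k ∈ A then t ⟨k, h⟩ else (z k : ℂ)

variable {z : Fin (N + 1) → ℝ} {A : Finset (Fin (N + 1))}

theorem ins_of (t : Mv A → ℂ) (k : Mv A) : ins z A t k = t k := by
  unfold ins
  rw [dif_pos k.2]

theorem ins_not (t : Mv A → ℂ) {k : Fin (N + 1)} (h : k ∉ A) : ins z A t k = z k := by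
  unfold ins
  rw [dif_neg h]

theorem ins_res {y : Fin (N + 1) → ℂ} (hy : ∀ k, k ∉ A → y k = z k) : ins z A (fun k : Mv A => y k) = y := by
  funext k
  by_cases h : k ∈ A
  · exact ins_of _ ⟨k, h⟩
  · rw [ins_not _ h, hy k h]

/-- the domain -/
def UA (z : Fin (N + 1) → ℝ) (A : Finset (Fin (N + 1))) : Set (Mv A → ℂ) := {t | ins z A t ∈ Ord N}

theorem ins_cont : Continuous (ins z A) := by
  refine continuous_pi fun k => ?_
  by_cases h : k ∈ A
  · have h1 : (fun t : Mv A → ℂ => ins z A t k) = fun t => t ⟨k, h⟩ := funext fun t => ins_of t ⟨k, h⟩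
    rw [h1]
    exact continuous_apply _
  · have h1 : (fun t : Mv A → ℂ => ins z A t k) = fun _ => (z k : ℂ) := funext fun t => ins_not t h
    rw [h1]
    exact continuous_const

theorem ins_an (t : Mv A → ℂ) : AnalyticAt ℂ (ins z A) t := by
  rw [analyticAt_pi_iff]
  intro k
  by_cases h : k ∈ A
  · have h1 : (fun t : Mv A → ℂ => ins z A t k) = fun t => t ⟨k, h⟩ := funext fun t => ins_of t ⟨k, h⟩
    rw [h1]
    exact (ContinuousLinearMap.proj (R := ℂ) (φ := fun _ : Mv A => ℂ) ⟨k, h⟩).analyticAt t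
  · have h1 : (fun t : Mv A → ℂ => ins z A t k) = fun _ => (z k : ℂ) := funext fun t => ins_not t h
    rw [h1]
    exact analyticAt_const

theorem UA_open : IsOpen (UA z A) := (Ord_open N).preimage ins_cont

theorem ins_comb (t s : Mv A → ℂ) {a b : ℝ} (hab : a + b = 1) :
    ins z A (a • t + b • s) = a • ins z A t + b • ins z A s := by
  funext k
  rw [Pi.add_apply, Pi.smul_apply, Pi.smul_apply]
  by_cases h : k ∈ A
  · rw [ins_of _ ⟨k, h⟩, ins_of _ ⟨k, h⟩, ins_of _ ⟨k, h⟩]
    rfl
  · rw [ins_not _ h, ins_not _ h, ins_not _ h, ← add_smul, hab, one_smul]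

theorem UA_convex : Convex ℝ (UA z A) := by
  intro t ht s hs a b ha hb hab
  show ins z A (a • t + b • s) ∈ Ord N
  rw [ins_comb t s hab]
  exact Ord_convex N ht hs ha hb hab

theorem UA_base (hz : StrictMono z) : (fun k : Mv A => ((z k : ℝ) : ℂ)) ∈ UA z A := by
  show ins z A (fun k : Mv A => ((z k : ℝ) : ℂ)) ∈ Ord N
  rw [ins_res (z := z) (A := A) (y := fun k => ((z k : ℝ) : ℂ)) fun k _ => rfl]
  exact Ord_real hz

/-- polynomials in the moving points as polynomials in all points -/
noncomputable def lft (A : Finset (Fin (N + 1))) : MvPolynomial (Mv A) ℂ →+* MvPolynomial (Fin (N + 1)) ℂ :=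
  (MvPolynomial.rename (Subtype.val : Mv A → Fin (N + 1))).toRingHom

theorem evX_lft {σ : Type} (y : Fin (N + 1) → ℂ) (Y : σ → ℂ) (p : MvPolynomial σ (MvPolynomial (Mv A) ℂ)) :
    evX y Y (MvPolynomial.map (lft A) p) = evX (fun k : Mv A => y k) Y p := by
  unfold evX
  rw [MvPolynomial.eval₂_map]
  congr 1
  refine RingHom.ext fun r => ?_
  show MvPolynomial.eval y (MvPolynomial.rename (Subtype.val : Mv A → Fin (N + 1)) r) = _
  rw [MvPolynomial.eval_rename]
  rfl

variable {ι : Type} {n : ι → ℕ} {em : ∀ j, Fin (n j + 1) ↪o Fin (N + 1)}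

theorem PFi_an (j : ι) (l k : Fin (n j)) : AnalyticOnNhd ℂ (fun t => PF em (ins z A t) j l k) (UA z A) := by
  intro t ht
  exact AnalyticAt.comp (g := fun x => PF em x j l k) (f := ins z A) (PF_an j l k _ ht) (ins_an t)

variable [Fintype ι] [DecidableEq ι]

/-- relations between the periods of all the curves are preserved by the transvections for one of them -/
theorem inv_TVs (hz : StrictMono z) (hd : ∀ j j' : ι, (∀ k, (∃ r, em j r = k) ↔ (∃ r, em j' r = k)) → j = j')
    (p : MvPolynomial (Ix n) (MvPolynomial (Mv A) ℂ))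
    (hp : ∀ t ∈ UA z A, evX t (fun q => PF em (ins z A t) q.1 q.2.1 q.2.2) p = 0)
    (j : ι) (hj0 : ∃ r, em j r ∈ A) (v : Fin (n j) → ℂ) (s : ℂ) :
    ∀ t ∈ UA z A, evX t (fun q => ((Pi.mulSingle j (TV v s) : MJ n) * PF em (ins z A t)) q.1 q.2.1 q.2.2) p = 0 := by
  classical
  set g : Matrix (Fin (n j)) (Fin (n j)) ℂ := TV v s with hg
  refine real_zero UA_open UA_convex.isPreconnected (x0 := fun k : Mv A => z k) (UA_base hz) ?_ ?_
  · have h1 : (fun x : Mv A → ℂ => evX x (fun q => ((Pi.mulSingle j g : MJ n) * PF em (ins z A x)) q.1 q.2.1 q.2.2) p) =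
        fun x => evM (fun q x => ((Pi.mulSingle j g : MJ n) * PF em (ins z A x)) q.1 q.2.1 q.2.2) x p := rfl
    rw [h1]
    refine evM_an (fun q => ?_) p
    intro x hx
    simp only [Pi.mul_apply, Matrix.mul_apply]
    refine Finset.analyticAt_fun_sum _ fun k _ => ?_
    exact analyticAt_const.mul (PFi_an q.1 k q.2.2 x hx)
  · intro x0 hx0
    -- all points
    set x : Fin (N + 1) → ℝ := fun k => if h : k ∈ A then x0 ⟨k, h⟩ else z k with hxdef
    have hxz : ∀ k, k ∉ A → ((x k : ℝ) : ℂ) = z k := by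
      intro k hk
      rw [hxdef]
      simp only [dif_neg hk]
    have hxx : (fun k : Mv A => ((x k : ℝ) : ℂ)) = fun k => (x0 k : ℂ) := by
      funext k
      rw [hxdef]
      simp only [dif_pos k.2]
    have hins : ins z A (fun k => (x0 k : ℂ)) = fun k => ((x k : ℝ) : ℂ) := by
      rw [← hxx]
      exact ins_res hxz
    have hx : (fun k => ((x k : ℝ) : ℂ)) ∈ Ord N := by
      rw [← hins]
      exact hx0
    have hx' := strictMono_of_mem hx
    obtain ⟨r0, hr0⟩ := hj0
    set m : Fin (N + 1) := em j r0 with hm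
    have ha := av_mono m hx'
    have hj : ∃ r, em j r = m := ⟨r0, rfl⟩
    obtain ⟨ε, hε, hgap⟩ := gap_nhds (av_gap m hx')
    have hId : speJ em m (fun i => (x i : ℂ)) (MvPolynomial.map (lft A) p) ∈ IdJ (ph em m) (av m x) m := by
      refine eq_zero_of_real ha m (differentiableOn_evJ ha m _) (show x m - ε < x m by linarith) hgap ?_
      intro t ht
      rw [speJ_ev]
      have h2 : Function.update (fun i => (x i : ℂ)) m (t : ℂ) ∈ Ord N := by
        rw [upd_cast]
        exact Ord_real (er_strictMono ha (hgap t ht))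
      have h3 : glJ em m (fun i => (x i : ℂ)) (PMJ (ph em m) (av m x) m (t : ℂ)) =
          PF em (Function.update (fun i => (x i : ℂ)) m (t : ℂ)) := by
        funext j'
        by_cases h : ∃ r, em j' r = m
        · have h4 := glJ_of em m (fun i => (x i : ℂ)) (PMJ (ph em m) (av m x) m (t : ℂ)) ⟨j', h⟩
          simp only at h4
          rw [h4, PMJ_eq]
        · rw [glJ_not em m _ _ h]
          unfold PF
          congr 1
          funext r
          rw [Function.update_of_ne]
          exact fun hr => h ⟨r, hr⟩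
      rw [h3, evX_lft]
      have h5 : ins z A (fun k : Mv A => Function.update (fun i => (x i : ℂ)) m (t : ℂ) k) =
          Function.update (fun i => (x i : ℂ)) m (t : ℂ) := by
        refine ins_res fun k hk => ?_
        rw [Function.update_of_ne, hxz k hk]
        rintro rfl
        exact hk hr0
      have h6 := hp (fun k : Mv A => Function.update (fun i => (x i : ℂ)) m (t : ℂ) k) (by
        show ins z A _ ∈ Ord N
        rw [h5]
        exact h2)
      rw [h5] at h6
      exact h6
    have hS := single_TV (φ := ph em m) (ph_inj em m hd) ha m ⟨j, hj⟩ v s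
    have key := mem_MonJ'.1 hS _ hId (x m : ℂ) (av_gap m hx').mem_Dm
    rw [speJ_ev] at key
    have h5 : Function.update (fun i => (x i : ℂ)) m (x m : ℂ) = fun i => (x i : ℂ) := Function.update_eq_self m _
    have h6 : glJ em m (fun i => (x i : ℂ)) ((Pi.mulSingle (⟨j, hj⟩ : Im em m) g : MJ fun j : Im em m => n j.1) *
        PMJ (ph em m) (av m x) m (x m : ℂ)) = (Pi.mulSingle j g : MJ n) * PF em (fun i => (x i : ℂ)) := by
      funext j'
      by_cases h : ∃ r, em j' r = m
      · have h4 := glJ_of em m (fun i => (x i : ℂ)) ((Pi.mulSingle (⟨j, hj⟩ : Im em m) g : MJ fun j : Im em m => n j.1) *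
          PMJ (ph em m) (av m x) m (x m : ℂ)) ⟨j', h⟩
        simp only at h4
        rw [h4, Pi.mul_apply, Pi.mul_apply, PMJ_eq, h5]
        by_cases hjj : j' = j
        · subst hjj
          rw [Pi.mulSingle_eq_same, Pi.mulSingle_eq_same]
        · rw [Pi.mulSingle_eq_of_ne hjj, Pi.mulSingle_eq_of_ne (fun h7 => hjj (congrArg Subtype.val h7))]
      · rw [glJ_not em m _ _ h, Pi.mul_apply, Pi.mulSingle_eq_of_ne, one_mul]
        rintro rfl
        exact h hj
    rw [h5, h6, evX_lft, hxx] at key
    rw [hins]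
    exact key

end Pool.Agent.N121.FX
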