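import Pool.Agent.N121.FX.Mon

/-!
# Fixed and moving branch points: all subsets
-/

set_option autoImplicit false
set_option linter.unusedSectionVars false

open Filter Matrix Topology NumberField

namespace Pool.Agent.N121.FX

open Pool.Agent.Y118.HP (jm jm_apply SpS jm_det jm_transpose jm_map SpS_map qm dl dl_ne dl_mul bm bm_eq perC TV sp_gen)
open Pool.Agent.Y890.MV
open Pool.Agent.Y890.HE
open Pool.Agent.Y890.SM
open Pool.Agent.Y890.SP (Qbar)
open Pool.Agent.N121.OH (rp)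
open Pool.Agent.N121.AH
open Pool.Agent.N156.HC (MJ PF)
open Pool.Agent.Y124 (Cov)

variable {N : ℕ} {z : Fin (N + 1) → ℝ} {A : Finset (Fin (N + 1))}

/-- the subsets of `{0, …, N}` which contain a moving point -/
abbrev SbA (A : Finset (Fin (N + 1))) : Type := {S : Finset (Fin (N + 1)) // (S ∩ A).Nonempty}

/-- the number of branch points, minus one -/
def dgA (S : SbA A) : ℕ := S.1.card - 1

theorem card_dgA (S : SbA A) : S.1.card = dgA S + 1 := by
  have h1 : 0 < S.1.card := Finset.card_pos.2 (S.2.mono Finset.inter_subset_left)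
  unfold dgA
  omega

/-- the increasing enumeration -/
def enA (S : SbA A) : Fin (dgA S + 1) ↪o Fin (N + 1) := S.1.orderEmbOfFin (card_dgA S)

theorem enA_range (S : SbA A) (k : Fin (N + 1)) : (∃ r, enA S r = k) ↔ k ∈ S.1 := by
  have h1 := Finset.range_orderEmbOfFin S.1 (card_dgA S)
  have h2 : k ∈ Set.range (enA S) ↔ k ∈ (S.1 : Set (Fin (N + 1))) := by
    rw [← h1]
    rfl
  exact h2

theorem enA_inj (S S' : SbA A) (h : ∀ k, (∃ r, enA S r = k) ↔ (∃ r, enA S' r = k)) : S = S' := by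
  refine Subtype.ext (Finset.ext fun k => ?_)
  rw [← enA_range, ← enA_range]
  exact h k

theorem enA_mem (S : SbA A) : ∃ r, enA S r ∈ A := by
  obtain ⟨k, hk⟩ := S.2
  rw [Finset.mem_inter] at hk
  obtain ⟨r, hr⟩ := (enA_range S k).2 hk.1
  exact ⟨r, by rw [hr]; exact hk.2⟩

/-- the family -/
noncomputable def famA (hz : StrictMono z) (A : Finset (Fin (N + 1))) : SympFam (Mv A) (ms fun S : SbA A => dgA S) :=
  fxF (em := enA) hz enA_inj enA_mem

/-- the period matrices in terms of integrals -/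
noncomputable def perA (z : Fin (N + 1) → ℝ) (A : Finset (Fin (N + 1))) (t : Mv A → ℂ) (S : SbA A) :
    Matrix (Fin (mm (dgA S))) (Fin (mm (dgA S))) ℂ :=
  (Matrix.of fun (l : Fin (mm (dgA S))) (k : Fin (dgA S)) => per1 (fun r => ins z A t (enA S r)) (cst l) k) *
    cf (dgA S) (rp fun r => ins z A t (enA S r))

theorem famA_P (hz : StrictMono z) {t : Mv A → ℂ} (ht : t ∈ UA z A) : (fun S => (famA hz A).P S t) = perA z A t := by
  funext S
  exact PV_per (Pool.Agent.N156.HC.Ord_sub (em := enA) ht S)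

/-- the torsor -/
def TrA (A : Finset (Fin (N + 1))) : Set ((∀ S : SbA A, Matrix (Fin (mm (dgA S))) (Fin (mm (dgA S))) ℂ) × ℂ) :=
  {p | p.2 ≠ 0 ∧ ∀ S, p.1 S * q0 ℂ (dgA S) * (p.1 S).transpose = p.2 • (bm ℚ (mm (dgA S))).map (algebraMap ℚ ℂ)}

theorem famA_torsor (hz : StrictMono z) (t : Mv A → ℂ) : (famA hz A).torsor t = TrA A := by
  ext p
  unfold SympFam.torsor TrA
  have h1 : ∀ S, ((famA hz A).Q S).map (MvPolynomial.aeval t) = q0 ℂ (dgA S) := by
    intro S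
    show ((q0 Qbar (dgA S)).map MvPolynomial.C).map (MvPolynomial.aeval t) = q0 ℂ (dgA S)
    rw [← q0_map (algebraMap Qbar ℂ)]
    refine Matrix.ext fun r s => ?_
    rw [Matrix.map_apply, Matrix.map_apply, Matrix.map_apply, MvPolynomial.aeval_C]
  have h2 : ∀ S, (famA hz A).w S = 1 := fun _ => rfl
  have h3 : ∀ S, (famA hz A).J S = bm ℚ (mm (dgA S)) := fun _ => rfl
  simp only [Set.mem_ofPred_eq, h1, h2, h3, pow_one]

/-- the relations at `t` hold on the torsor -/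
def GenA (z : Fin (N + 1) → ℝ) (A : Finset (Fin (N + 1))) (k : ℕ) (K : Type) [Field K] [NumberField K] (io : K →+* ℂ)
    (ξ : Fin k → ℂ) (T : ℝ) (t : Mv A → ℂ) : Prop :=
  ∀ c : (Ix (ms fun S : SbA A => dgA S) → Fin (k + 1)) → Fin k → 𝓞 K,
    (∀ l a (φ : K →+* ℂ), ‖φ (c l a : K)‖ ≤ T ^ k) →
    (poly (fun l a => io (c l a : K)) ξ (perA z A t) = 0 →
      ∀ Y, (Y, tpi) ∈ TrA A → poly (fun l a => io (c l a : K)) ξ Y = 0) ∧
    (poly (fun l a => io (c l a : K)) (fun a => tpi ^ (a : ℕ)) (perA z A t) = 0 →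
      ∀ p ∈ TrA A, poly (fun l a => io (c l a : K)) (fun a => p.2 ^ (a : ℕ)) p.1 = 0)

/-- the exceptional points -/
def ExA (z : Fin (N + 1) → ℝ) (A : Finset (Fin (N + 1))) (k : ℕ) (K : Type) [Field K] [NumberField K] (io : K →+* ℂ)
    (ξ : Fin k → ℂ) (T : ℝ) : Set (Mv A → K) :=
  {e | (∀ j, Y120.HtLe K T (e j)) ∧ (fun j => io (e j)) ∈ InnerM (UA z A) k ∧
    ¬ GenA z A k K io ξ T (fun j => io (e j))}

theorem ExA_eq (hz : StrictMono z) {k : ℕ} (hk : 0 < k) (K : Type) [Field K] [NumberField K] (io : K →+* ℂ)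
    (ξ : Fin k → ℂ) (T : ℝ) : ExA z A k K io ξ T = (famA hz A).Exceptional k K io ξ T := by
  ext e
  unfold ExA SympFam.Exceptional
  simp only [Set.mem_ofPred_eq]
  have h0 : (famA hz A).U = UA z A := rfl
  rw [h0]
  refine and_congr_right fun _ => and_congr_right fun h1 => not_congr ?_
  have h2 := innerM_sub _ hk h1
  unfold GenA SympFam.Generic
  rw [← famA_P hz h2]
  simp only [famA_torsor]

theorem mainA (hz : StrictMono z) (hA : A.Nonempty) :
    ∃ (ω : ℝ → ℕ) (T₀ : ℝ), Tendsto ω atTop atTop ∧ Monotone ω ∧ ∀ T, T₀ ≤ T → 0 < ω T ∧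
      ∀ (K : Type) [Field K] [NumberField K], Module.finrank ℚ K ≤ ω T → ∀ (io : K →+* ℂ) (ξ : Fin (ω T) → ℂ),
        Cov ⌊T ^ ((ω T : ℝ)⁻¹)⌋₊ ⌊T ^ ((ω T : ℝ)⁻¹)⌋₊
          ((fun (e : Mv A → K) j => io (e j)) '' ExA z A (ω T) K io ξ T) ∧
        (ExA z A (ω T) K io ξ T).Finite ∧
        ((ExA z A (ω T) K io ξ T).ncard : ℝ) ≤
          T ^ ((ω T : ℝ)⁻¹) * ({x : K | Y120.HtLe K T x}.ncard : ℝ) ^ (A.card - 1) := by
  obtain ⟨k0, hk0⟩ := hA
  have : Nonempty (Mv A) := ⟨⟨k0, hk0⟩⟩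
  obtain ⟨ω, T₀, h1, h2, h3⟩ := (famA hz A).main
  refine ⟨ω, T₀, h1, h2, fun T hT => ⟨(h3 T hT).1, ?_⟩⟩
  intro K _ _ hK io ξ
  have h4 := (h3 T hT).2 K hK io ξ
  rw [Fintype.card_coe] at h4
  rw [ExA_eq hz (h3 T hT).1]
  exact h4

/-- relations over `ℂ(t)` -/
theorem relA (hz : StrictMono z) (p : MvPolynomial (Ix (ms fun S : SbA A => dgA S)) (MvPolynomial (Mv A) ℂ))
    (hp : ∀ t ∈ UA z A, evX t (fun q => perA z A t q.1 q.2.1 q.2.2) p = 0) (t : Mv A → ℂ) (ht : t ∈ UA z A)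
    (Y : ∀ S : SbA A, Matrix (Fin (mm (dgA S))) (Fin (mm (dgA S))) ℂ) (hY : (Y, tpi) ∈ TrA A) :
    evX t (fun q => Y q.1 q.2.1 q.2.2) p = 0 := by
  have h1 := (famA hz A).tor
  refine h1.inv p (fun t ht => ?_) t ht (fun q => Y q.1 q.2.1 q.2.2) fun i => ?_
  · have h2 := hp t ht
    rw [← famA_P hz ht] at h2
    exact h2
  · rw [← famA_torsor hz t] at hY
    exact hY.2 i

end Pool.Agent.N121.FX
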