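import Pool.Agent.N121.FX.Per

/-!
# Fixed and moving branch points: relations are invariant under the symplectic groups; the family
-/

set_option autoImplicit false
set_option linter.unusedSectionVars false

open Filter Matrix Topology

namespace Pool.Agent.N121.FX

open Pool.Agent.Y118.HP (jm jm_apply SpS jm_det jm_transpose jm_map SpS_map qm dl dl_ne dl_mul bm bm_eq perC TV sp_gen)
open Pool.Agent.Y890.MV
open Pool.Agent.Y890.HE
open Pool.Agent.Y890.SM
open Pool.Agent.Y890.SP (Qbar)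
open Pool.Agent.N121.OH
open Pool.Agent.N121.AH
open Pool.Agent.N156.HC (MJ PF)

variable {N : ℕ} {z : Fin (N + 1) → ℝ} {A : Finset (Fin (N + 1))} {ι : Type} {n : ι → ℕ}
  {em : ∀ j, Fin (n j + 1) ↪o Fin (N + 1)}

/-- the sizes of the matrices -/
abbrev ms (n : ι → ℕ) (j : ι) : ℕ := mm (n j)

/-- the branch points as polynomials in the moving points -/
noncomputable def xp (z : Fin (N + 1) → ℝ) (A : Finset (Fin (N + 1))) (k : Fin (N + 1)) : MvPolynomial (Mv A) ℂ :=
  if h : k ∈ A then MvPolynomial.X ⟨k, h⟩ else MvPolynomial.C (z k : ℂ)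

theorem xp_eval (k : Fin (N + 1)) (t : Mv A → ℂ) : MvPolynomial.eval t (xp z A k) = ins z A t k := by
  unfold xp ins
  split_ifs with h
  · rw [MvPolynomial.eval_X]
  · rw [MvPolynomial.eval_C]

/-- the coefficients of the forms as polynomials in the moving points -/
noncomputable def cfX (z : Fin (N + 1) → ℝ) (A : Finset (Fin (N + 1))) (em : ∀ j, Fin (n j + 1) ↪o Fin (N + 1)) (j : ι)
    (k : Fin (n j)) (i : Fin (ms n j)) : MvPolynomial (Mv A) ℂ :=
  if (i : ℕ) < n j / 2 then (if (k : ℕ) = i then 1 else 0) else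
    (if (i : ℕ) - n j / 2 < k then MvPolynomial.C (((((i : ℕ) - n j / 2 : ℕ) : ℂ) - ((k : ℕ) : ℂ)) / 2) *
      (rp fun r => xp z A (em j r)).coeff ((i : ℕ) - n j / 2 + k + 2) else 0)

theorem cfX_eval (j : ι) (k : Fin (n j)) (i : Fin (ms n j)) (t : Mv A → ℂ) :
    MvPolynomial.eval t (cfX z A em j k i) = cf (n j) (rp fun r => ins z A t (em j r)) k i := by
  have h1 : ∀ m, MvPolynomial.eval t ((rp fun r => xp z A (em j r)).coeff m) =
      (rp fun r => ins z A t (em j r)).coeff m := by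
    intro m
    rw [← Polynomial.coeff_map, map_rp]
    simp only [xp_eval]
  unfold cfX cf
  rw [Matrix.of_apply]
  split_ifs with h2 h3 h4
  · rw [map_one]
  · rw [map_zero]
  · rw [map_mul, MvPolynomial.eval_C, h1]
  · rw [map_zero]

/-- the transfer of relations -/
noncomputable def trX (z : Fin (N + 1) → ℝ) (A : Finset (Fin (N + 1))) (em : ∀ j, Fin (n j + 1) ↪o Fin (N + 1)) :
    MvPolynomial (Ix (ms n)) (MvPolynomial (Mv A) ℂ) →+* MvPolynomial (Ix n) (MvPolynomial (Mv A) ℂ) :=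
  MvPolynomial.eval₂Hom MvPolynomial.C
    (fun q => ∑ k : Fin (n q.1), MvPolynomial.C (MvPolynomial.C ((Complex.I ^ (n q.1 % 2))⁻¹ *
      dl (cst q.2.1 : Fin (n q.1))) * cfX z A em q.1 k q.2.2) * MvPolynomial.X (⟨q.1, (cst q.2.1, k)⟩ : Ix n))

/-- the matrices obtained from the values of the periods -/
noncomputable def MX (z : Fin (N + 1) → ℝ) (A : Finset (Fin (N + 1))) (em : ∀ j, Fin (n j + 1) ↪o Fin (N + 1))
    (t : Mv A → ℂ) (Z : MJ n) (j : ι) : Matrix (Fin (ms n j)) (Fin (ms n j)) ℂ :=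
  Matrix.of fun l i => ∑ k : Fin (n j), (Complex.I ^ (n j % 2))⁻¹ * dl (cst l : Fin (n j)) *
    cf (n j) (rp fun r => ins z A t (em j r)) k i * Z j (cst l) k

theorem trX_ev (t : Mv A → ℂ) (Z : MJ n) (p : MvPolynomial (Ix (ms n)) (MvPolynomial (Mv A) ℂ)) :
    evX t (fun q => Z q.1 q.2.1 q.2.2) (trX z A em p) = evX t (fun q => MX z A em t Z q.1 q.2.1 q.2.2) p := by
  have h1 : (MvPolynomial.eval₂Hom (MvPolynomial.eval t) (fun q : Ix n => Z q.1 q.2.1 q.2.2)).comp (trX z A em) =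
      MvPolynomial.eval₂Hom (MvPolynomial.eval t) (fun q => MX z A em t Z q.1 q.2.1 q.2.2) := by
    refine MvPolynomial.ringHom_ext (fun b => ?_) (fun q => ?_)
    · simp [trX]
    · simp only [RingHom.comp_apply, trX, MvPolynomial.eval₂Hom_X', map_sum, map_mul, MvPolynomial.eval₂Hom_C,
        MvPolynomial.eval_C, cfX_eval]
      unfold MX
      rw [Matrix.of_apply]
  exact congrArg (fun g => g p) h1

/-- the period matrices -/
noncomputable def PX (z : Fin (N + 1) → ℝ) (A : Finset (Fin (N + 1))) (em : ∀ j, Fin (n j + 1) ↪o Fin (N + 1))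
    (t : Mv A → ℂ) (j : ι) : Matrix (Fin (ms n j)) (Fin (ms n j)) ℂ := PV fun r => ins z A t (em j r)

theorem MX_PF (t : Mv A → ℂ) : MX z A em t (PF em (ins z A t)) = PX z A em t := by
  funext j
  ext l i
  unfold MX PX PV
  rw [Matrix.of_apply, Matrix.mul_apply]
  refine Finset.sum_congr rfl fun k _ => ?_
  rw [Matrix.of_apply]
  show _ * perC (fun r => ins z A t (em j r)) (cst l) k = _
  ring

theorem PX_an (j : ι) (l i : Fin (ms n j)) : AnalyticOnNhd ℂ (fun t => PX z A em t j l i) (UA z A) := by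
  have h1 : (fun t => PX z A em t j l i) = fun t => evM (fun (q : Ix n) t => PF em (ins z A t) q.1 q.2.1 q.2.2) t
      (trX z A em (MvPolynomial.X (⟨j, (l, i)⟩ : Ix (ms n)))) := by
    funext t
    have h2 := trX_ev (z := z) (em := em) t (PF em (ins z A t)) (MvPolynomial.X (⟨j, (l, i)⟩ : Ix (ms n)))
    rw [MX_PF] at h2
    have h3 : evX t (fun q => PX z A em t q.1 q.2.1 q.2.2) (MvPolynomial.X (⟨j, (l, i)⟩ : Ix (ms n))) =
        PX z A em t j l i := by
      unfold evX
      rw [MvPolynomial.eval₂_X]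
    rw [← h3, ← h2]
    rfl
  rw [h1]
  exact evM_an (f := fun (q : Ix n) t => PF em (ins z A t) q.1 q.2.1 q.2.2)
    (fun q => PFi_an (em := em) q.1 q.2.1 q.2.2) _

section tv

variable [Fintype ι] [DecidableEq ι]

/-- the action of a transvection on the rows -/
theorem MX_TV (t : Mv A → ℂ) (j : ι) (v : Fin (ms n j) → ℂ) (s : ℂ) (Z : MJ n) :
    MX z A em t ((Pi.mulSingle j (TV (ez v) s) : MJ n) * Z) =
      (Pi.mulSingle j (cj (TV v s)) : ∀ j, Matrix (Fin (ms n j)) (Fin (ms n j)) ℂ) * MX z A em t Z := by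
  funext j'
  by_cases hS : j' = j
  · subst hS
    rw [Pi.mul_apply, Pi.mulSingle_eq_same]
    ext l i
    rw [Matrix.mul_apply]
    unfold MX
    simp only [Matrix.of_apply, Pi.mul_apply, Pi.mulSingle_eq_same]
    simp only [TV_ez]
    simp only [Matrix.mul_apply, Matrix.submatrix_apply, Finset.mul_sum]
    rw [Finset.sum_comm]
    refine Finset.sum_congr rfl fun r _ => Finset.sum_congr rfl fun k _ => ?_
    have h1 : dl (cst l : Fin (n j')) = dl l := rfl
    have h2 : dl (cst r : Fin (n j')) = dl r := rfl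
    have h4 : cj (TV v s) l r = dl l * TV v s l r * (dl r)⁻¹ := rfl
    rw [h1, h2, h4, id]
    have h3 := dl_ne r
    field_simp
  · rw [Pi.mul_apply, Pi.mulSingle_eq_of_ne hS, one_mul]
    unfold MX
    simp only [Pi.mul_apply, Pi.mulSingle_eq_of_ne hS, one_mul]

/-- relations are preserved: transvections -/
theorem inv_oneX (hz : StrictMono z) (hd : ∀ j j' : ι, (∀ k, (∃ r, em j r = k) ↔ (∃ r, em j' r = k)) → j = j')
    (p : MvPolynomial (Ix (ms n)) (MvPolynomial (Mv A) ℂ))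
    (hp : ∀ t ∈ UA z A, evX t (fun q => PX z A em t q.1 q.2.1 q.2.2) p = 0) (j : ι) (hj : ∃ r, em j r ∈ A)
    (v : Fin (ms n j) → ℂ) (s : ℂ) :
    ∀ t ∈ UA z A, evX t (fun q => ((Pi.mulSingle j (cj (TV v s)) :
      ∀ j, Matrix (Fin (ms n j)) (Fin (ms n j)) ℂ) * PX z A em t) q.1 q.2.1 q.2.2) p = 0 := by
  intro t ht
  have h1 : ∀ t ∈ UA z A, evX t (fun q => PF em (ins z A t) q.1 q.2.1 q.2.2) (trX z A em p) = 0 := by
    intro t ht
    rw [trX_ev, MX_PF]
    exact hp t ht
  have h2 := inv_TVs hz hd _ h1 j hj (ez v) s t ht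
  rw [trX_ev, MX_TV, MX_PF] at h2
  exact h2

/-- substitution `X ↦ g X` -/
noncomputable def sbV (A : Finset (Fin (N + 1))) (g : ∀ j, Matrix (Fin (ms n j)) (Fin (ms n j)) ℂ) :
    MvPolynomial (Ix (ms n)) (MvPolynomial (Mv A) ℂ) →+* MvPolynomial (Ix (ms n)) (MvPolynomial (Mv A) ℂ) :=
  MvPolynomial.eval₂Hom MvPolynomial.C (fun q => ∑ k, MvPolynomial.C (MvPolynomial.C (g q.1 q.2.1 k)) *
    MvPolynomial.X (⟨q.1, (k, q.2.2)⟩ : Ix (ms n)))

theorem sbV_ev (g : ∀ j, Matrix (Fin (ms n j)) (Fin (ms n j)) ℂ) (a : Mv A → ℂ)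
    (Z : ∀ j, Matrix (Fin (ms n j)) (Fin (ms n j)) ℂ) (p : MvPolynomial (Ix (ms n)) (MvPolynomial (Mv A) ℂ)) :
    evX a (fun q => Z q.1 q.2.1 q.2.2) (sbV A g p) = evX a (fun q => (g * Z) q.1 q.2.1 q.2.2) p := by
  have h1 : (MvPolynomial.eval₂Hom (MvPolynomial.eval a) (fun q : Ix (ms n) => Z q.1 q.2.1 q.2.2)).comp (sbV A g) =
      MvPolynomial.eval₂Hom (MvPolynomial.eval a) (fun q => (g * Z) q.1 q.2.1 q.2.2) := by
    refine MvPolynomial.ringHom_ext (fun b => ?_) (fun q => ?_)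
    · simp [sbV]
    · simp [sbV, Matrix.mul_apply]
  exact congrArg (fun g => g p) h1

/-- the tuples which preserve the relations -/
def MonV (z : Fin (N + 1) → ℝ) (A : Finset (Fin (N + 1))) (em : ∀ j, Fin (n j + 1) ↪o Fin (N + 1)) :
    Submonoid (∀ j, Matrix (Fin (ms n j)) (Fin (ms n j)) ℂ) where
  carrier := {g | ∀ p : MvPolynomial (Ix (ms n)) (MvPolynomial (Mv A) ℂ),
    (∀ a ∈ UA z A, evX a (fun q => PX z A em a q.1 q.2.1 q.2.2) p = 0) →
      ∀ a ∈ UA z A, evX a (fun q => (g * PX z A em a) q.1 q.2.1 q.2.2) p = 0}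
  one_mem' := by
    intro p hp a ha
    rw [one_mul]
    exact hp a ha
  mul_mem' := by
    intro g h hg hh p hp a ha
    have h1 : ∀ a ∈ UA z A, evX a (fun q => PX z A em a q.1 q.2.1 q.2.2) (sbV A g p) = 0 := by
      intro a ha
      rw [sbV_ev]
      exact hg p hp a ha
    have h2 := hh _ h1 a ha
    rw [sbV_ev] at h2
    rw [mul_assoc]
    exact h2

/-- one curve -/
theorem single_SpX (hz : StrictMono z) (hd : ∀ j j' : ι, (∀ k, (∃ r, em j r = k) ↔ (∃ r, em j' r = k)) → j = j')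
    (j : ι) (hj : ∃ r, em j r ∈ A) {g : Matrix (Fin (ms n j)) (Fin (ms n j)) ℂ} (hg : g ∈ SpS ℂ (ms n j)) :
    (Pi.mulSingle j g : ∀ j, Matrix (Fin (ms n j)) (Fin (ms n j)) ℂ) ∈ MonV z A em := by
  set M1 : Submonoid (Matrix (Fin (ms n j)) (Fin (ms n j)) ℂ) :=
    (MonV z A em).comap (MonoidHom.mulSingle (fun j => Matrix (Fin (ms n j)) (Fin (ms n j)) ℂ) j) with hM1
  set M2 : Submonoid (Matrix (Fin (ms n j)) (Fin (ms n j)) ℂ) :=
    { carrier := {g | cj g ∈ M1}
      one_mem' := by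
        show cj 1 ∈ M1
        rw [cj_one]
        exact one_mem _
      mul_mem' := by
        intro g h hg hh
        show cj (g * h) ∈ M1
        rw [cj_mul]
        exact mul_mem hg hh } with hM2
  have h1 := conj_dl hg
  have h2 := sp_gen (mm_even (n j)) M2 (fun v t => by
    show cj (TV v t) ∈ M1
    intro p hp a ha
    exact inv_oneX hz hd p hp j hj v t a ha) _ h1
  have h3 : cj (Matrix.of fun l k => (dl l)⁻¹ * g l k * dl k) = g := by
    ext l k
    unfold cj
    rw [Matrix.of_apply, Matrix.of_apply]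
    have h4 := dl_ne l
    have h5 := dl_ne k
    field_simp
  have h6 : cj (Matrix.of fun l k => (dl l)⁻¹ * g l k * dl k) ∈ M1 := h2
  rw [h3] at h6
  exact h6

/-- **relations are invariant under the product of the symplectic groups** -/
theorem fx_mon (hz : StrictMono z) (hd : ∀ j j' : ι, (∀ k, (∃ r, em j r = k) ↔ (∃ r, em j' r = k)) → j = j')
    (hA : ∀ j, ∃ r, em j r ∈ A) {g : ∀ j, Matrix (Fin (ms n j)) (Fin (ms n j)) ℂ} (hg : ∀ j, g j ∈ SpS ℂ (ms n j)) :
    g ∈ MonV z A em := Pool.Agent.N156.HC.tuple_mem (MonV z A em) g fun j => single_SpX hz hd j (hA j) (hg j)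

/-- the family of the curves with fixed and moving branch points -/
noncomputable def fxF (hz : StrictMono z) (hd : ∀ j j' : ι, (∀ k, (∃ r, em j r = k) ↔ (∃ r, em j' r = k)) → j = j')
    (hA : ∀ j, ∃ r, em j r ∈ A) : SympFam (Mv A) (ms n) where
  U := UA z A
  isOpen := UA_open
  conn := UA_convex.isPreconnected
  nonempty := ⟨_, UA_base hz⟩
  P := fun j t => PX z A em t j
  an := PX_an
  w := fun _ => 1
  Q := fun j => (q0 Qbar (n j)).map MvPolynomial.C
  Q_alt := fun j => by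
    rw [← Matrix.transpose_map, q0_transpose]
    refine Matrix.ext fun a b => ?_
    rw [Matrix.map_apply, Matrix.neg_apply, Matrix.neg_apply, Matrix.map_apply, map_neg]
  J := fun j => bm ℚ (ms n j)
  J_alt := fun i => by
    rw [bm_eqQ, Matrix.transpose_smul, jm_transpose, smul_neg]
  J_det := fun j => by
    rw [bm_eqQ, Matrix.det_smul]
    exact mul_ne_zero (pow_ne_zero _ (by norm_num)) (jm_det (mm_even (n j)))
  riemann := fun t ht j => by
    have h1 : ((q0 Qbar (n j)).map MvPolynomial.C).map (MvPolynomial.aeval t) = q0 ℂ (n j) := by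
      rw [← q0_map (algebraMap Qbar ℂ)]
      refine Matrix.ext fun r s => ?_
      rw [Matrix.map_apply, Matrix.map_apply, Matrix.map_apply, MvPolynomial.aeval_C]
    rw [h1, pow_one]
    exact PV_riemann (Pool.Agent.N156.HC.Ord_sub (em := em) ht j)
  Γ := {γ | ∀ j, γ j ∈ SpS ℚ (ms n j)}
  pres := fun γ hγ j => bm_pres (hγ j)
  mon := fun γ hγ p hp => fx_mon hz hd hA (g := fun j => (γ j).map (algebraMap ℚ ℂ))
    (fun j => SpS_map (algebraMap ℚ ℂ) (hγ j)) p hp
  dense := fun R hR M hM => dense_prod (fun j => mm_even (n j)) R (fun g hg => hR g hg) M fun j => sp_of_bm (hM j)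

end tv

end Pool.Agent.N121.FX
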