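import Pool.Agent.N121.FX.Inv
import Pool.Agent.N121.AH.Mon

/-!
# Fixed and moving branch points: the period matrix of one curve
-/

set_option autoImplicit false
set_option linter.unusedSectionVars false

open Complex Set Filter Topology Matrix

namespace Pool.Agent.N121.FX

open Pool.Agent.Y118.HP (jm jm_apply SpS jm_det jm_transpose jm_map SpS_map qm dl dl_ne dl_mul bm bm_eq perC TV sp_gen)
open Pool.Agent.Y890.HE (Ord)
open Pool.Agent.Y890.SM
open Pool.Agent.Y890.MV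
open Pool.Agent.N121.OH
open Pool.Agent.N121.AH

variable {m : ℕ}

/-- a branch of the square root of `∏ (x - e i)` along the segment from `e l` to `e (l + 1)` -/
noncomputable def rt1 (e : Fin (m + 1) → ℂ) (l : Fin m) (x : ℂ) : ℂ :=
  I ^ (m % 2 + (l : ℕ) % 2) * ∏ i : Fin (m + 1), (if (i : ℕ) ≤ l then x - e i else e i - x) ^ (1 / 2 : ℂ)

/-- the square of the branch -/
theorem rt1_sq (e : Fin (m + 1) → ℂ) (l : Fin m) (x : ℂ) : rt1 e l x ^ 2 = ∏ i, (x - e i) := by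
  have h0 : ∀ z : ℂ, (z ^ (1 / 2 : ℂ)) ^ 2 = z := by
    intro z
    rcases eq_or_ne z 0 with rfl | hz
    · rw [zero_cpow (by norm_num)]
      simp
    · rw [sq, half_sq hz]
  unfold rt1
  rw [mul_pow, ← Finset.prod_pow]
  simp only [h0]
  have h1 : ∏ i : Fin (m + 1), (if (i : ℕ) ≤ l then x - e i else e i - x) =
      (∏ i : Fin (m + 1), (if (i : ℕ) ≤ l then (1 : ℂ) else -1)) * ∏ i, (x - e i) := by
    rw [← Finset.prod_mul_distrib]
    refine Finset.prod_congr rfl fun i _ => ?_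
    split_ifs <;> ring
  have h2 : (∏ i : Fin (m + 1), (if (i : ℕ) ≤ l then (1 : ℂ) else -1)) = (-1) ^ (m - (l : ℕ)) := by
    rw [Finset.prod_ite, Finset.prod_const_one, one_mul, Finset.prod_const]
    congr 1
    have h3 : (Finset.univ.filter fun i : Fin (m + 1) => ¬ (i : ℕ) ≤ l) = Finset.Ioi (l.castSucc) := by
      ext i
      simp [Fin.lt_def]
    rw [h3, Fin.card_Ioi]
    simp
  have h5 : ∀ k : ℕ, (I ^ (k % 2)) ^ 2 = (-1 : ℂ) ^ k := I_pow_sq
  have h4 : (I ^ (m % 2 + (l : ℕ) % 2)) ^ 2 * (-1) ^ (m - (l : ℕ)) = (1 : ℂ) := by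
    rw [pow_add, mul_pow, h5, h5, mul_assoc, ← pow_add, Nat.add_sub_of_le l.2.le, ← mul_pow]
    norm_num
  rw [h1, h2, ← mul_assoc, h4, one_mul]

/-- the period -/
noncomputable def per1 (e : Fin (m + 1) → ℂ) (l j : Fin m) : ℂ :=
  2 * ∫ t in (0 : ℝ)..1, (sg (e l.castSucc) (e l.succ) t) ^ (j : ℕ) / rt1 e l (sg (e l.castSucc) (e l.succ) t) *
    (e l.succ - e l.castSucc)

/-- **the periods are the analytic functions** -/
theorem per1_eq {e : Fin (m + 1) → ℂ} (he : e ∈ Ord m) (l j : Fin m) :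
    per1 e l j = (I ^ (m % 2))⁻¹ * (dl l * perC e l j) := by
  set w : ℂ := (1 + I : ℂ) ^ (1 / 2 : ℂ) with hw
  have hw0 : w ≠ 0 := w_ne
  have hw2 : w ^ 2 = 1 + I := w_sq
  have hI0 : (I ^ (m % 2) : ℂ) ≠ 0 := pow_ne_zero _ I_ne_zero
  have hwn : w ^ (m + 1) ≠ 0 := pow_ne_zero _ hw0
  have hpw : w ^ (2 * (j : ℤ) + 1 - m) * w ^ (m + 1) = (1 + I) ^ ((j : ℕ) + 1) := by
    rw [← hw2, ← pow_mul, ← zpow_natCast, ← zpow_natCast, ← zpow_add₀ hw0]
    congr 1
    push_cast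
    ring
  have hA : w ^ (2 * (j : ℤ) + 1 - m) = (1 + I) ^ ((j : ℕ) + 1) * (w ^ (m + 1))⁻¹ := by
    rw [← hpw, mul_inv_cancel_right₀ hwn]
  have h1 := perF_eq he l j
  have hsg : ∀ t : ℝ, sg ((1 + I) * e l.castSucc) ((1 + I) * e l.succ) t = (1 + I) * sg (e l.castSucc) (e l.succ) t := by
    intro t
    unfold sg
    ring
  have hrt : ∀ x : ℂ, rtF (fun r => (1 + I) * e r) l ((1 + I) * x) = w ^ (m + 1) * ((I ^ (m % 2))⁻¹ * rt1 e l x) := by
    intro x
    unfold rtF rt1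
    have h2 : ∀ i : Fin (m + 1), ((if (i : ℕ) ≤ l then (1 + I) * x - (1 + I) * e i else
        (1 + I) * e i - (1 + I) * x) / (1 + I)) = (if (i : ℕ) ≤ l then x - e i else e i - x) := by
      intro i
      have := u_ne
      split_ifs
      · field_simp
      · field_simp
    simp only [h2]
    rw [pow_add I, ← hw]
    field_simp
  have h3 : perF (fun r => (1 + I) * e r) l j = w ^ (2 * (j : ℤ) + 1 - m) * I ^ (m % 2) * per1 e l j := by
    unfold perF per1
    have h4 : ∀ t : ℝ, (sg ((1 + I) * e l.castSucc) ((1 + I) * e l.succ) t) ^ (j : ℕ) /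
        rtF (fun r => (1 + I) * e r) l (sg ((1 + I) * e l.castSucc) ((1 + I) * e l.succ) t) *
          ((1 + I) * e l.succ - (1 + I) * e l.castSucc) = (w ^ (2 * (j : ℤ) + 1 - m) * I ^ (m % 2)) *
        ((sg (e l.castSucc) (e l.succ) t) ^ (j : ℕ) / rt1 e l (sg (e l.castSucc) (e l.succ) t) *
          (e l.succ - e l.castSucc)) := by
      intro t
      rw [hsg, hrt, hA, mul_pow, div_eq_mul_inv, mul_inv, mul_inv, inv_inv, div_eq_mul_inv]
      ring
    simp only [h4]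
    rw [intervalIntegral.integral_const_mul]
    ring
  rw [h3] at h1
  have hκ : w ^ (2 * (j : ℤ) + 1 - m) ≠ 0 := zpow_ne_zero _ hw0
  have h5 : w ^ (2 * (j : ℤ) + 1 - m) * (I ^ (m % 2) * per1 e l j) = w ^ (2 * (j : ℤ) + 1 - m) * (dl l * perC e l j) := by
    rw [← mul_assoc, h1]
    ring
  have h6 := mul_left_cancel₀ hκ h5
  rw [← h6, inv_mul_cancel_left₀ hI0]

/-- the period matrix: the first loops, the symplectic basis of the forms -/
noncomputable def PV (e : Fin (m + 1) → ℂ) : Matrix (Fin (mm m)) (Fin (mm m)) ℂ :=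
  (Matrix.of fun (l : Fin (mm m)) (k : Fin m) => (I ^ (m % 2))⁻¹ * (dl (cst l : Fin m) * perC e (cst l) k)) * cf m (rp e)

/-- the period matrix in terms of integrals -/
theorem PV_per {e : Fin (m + 1) → ℂ} (he : e ∈ Ord m) :
    PV e = (Matrix.of fun (l : Fin (mm m)) (k : Fin m) => per1 e (cst l) k) * cf m (rp e) := by
  unfold PV
  congr 1
  ext l k
  rw [Matrix.of_apply, Matrix.of_apply, per1_eq he]

theorem PV_riemann {e : Fin (m + 1) → ℂ} (he : e ∈ Ord m) :
    PV e * q0 ℂ m * (PV e).transpose = tpi • (bm ℚ (mm m)).map (algebraMap ℚ ℂ) := by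
  set σ : ℂ := I ^ (m % 2) with hσ
  have hσ2 : σ ^ 2 = (-1) ^ m := I_pow_sq m
  have hσ0 : σ ≠ 0 := pow_ne_zero _ I_ne_zero
  have h0 : PV e = (σ⁻¹ • PE 1 e).submatrix cst id * cf m (rp e) := by
    unfold PV
    congr 1
    ext l k
    rw [Matrix.of_apply, Matrix.submatrix_apply, Matrix.smul_apply, smul_eq_mul]
    unfold PE
    rw [Matrix.of_apply, _root_.one_zpow, one_mul]
    rfl
  have h1 := PE_riemannG (u := 1) (w := 1) (by norm_num) one_ne_zero he
  have h1' : PE 1 e * qm m (rp e) * (PE 1 e).transpose = ((-1) ^ m * tpi) • (bm ℚ m).map (algebraMap ℚ ℂ) := by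
    simpa using h1
  have hG : (σ⁻¹ • PE 1 e) * qm m (rp e) * (σ⁻¹ • PE 1 e).transpose = tpi • (bm ℚ m).map (algebraMap ℚ ℂ) := by
    rw [Matrix.transpose_smul, Matrix.smul_mul, Matrix.mul_smul, Matrix.smul_mul, h1', smul_smul, smul_smul]
    congr 1
    rw [← hσ2]
    field_simp
  rw [h0, Matrix.transpose_mul]
  have h2 : (σ⁻¹ • PE 1 e).submatrix cst id * cf m (rp e) * q0 ℂ m * ((cf m (rp e)).transpose *
      ((σ⁻¹ • PE 1 e).submatrix cst id).transpose) =
      (σ⁻¹ • PE 1 e).submatrix cst id * (cf m (rp e) * q0 ℂ m * (cf m (rp e)).transpose) *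
        ((σ⁻¹ • PE 1 e).submatrix cst id).transpose := by
    simp only [Matrix.mul_assoc]
  rw [h2, cf_q0 (rp e) fun k hk => coeff_big e hk]
  have h3 : (σ⁻¹ • PE 1 e).submatrix (cst (n := m)) id * qm m (rp e) * ((σ⁻¹ • PE 1 e).submatrix cst id).transpose =
      ((σ⁻¹ • PE 1 e) * qm m (rp e) * (σ⁻¹ • PE 1 e).transpose).submatrix cst cst := by
    ext r s
    simp only [Matrix.mul_apply, Matrix.submatrix_apply, Matrix.transpose_apply, id]
  rw [h3, hG]
  ext r s
  rfl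

end Pool.Agent.N121.FX
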